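import Mathlib
import Pool.Agent.VM.Stmts

/-!
# VMV: module GRD (the grid identity)
-/

set_option autoImplicit false

namespace Pool.Agent.VM.H61

open Pool.Agent.Helper69_Weyl

/-- the difference of the power sums -/
noncomputable def dps {s : ℕ} (e : ℕ) (v : (Fin s → ℤ) × (Fin s → ℤ)) : ℤ :=
  ∑ i, v.1 i ^ e - ∑ i, v.2 i ^ e

theorem norm_pow_expand {s : ℕ} (I : Finset ℤ) (φ : ℤ → ℝ) :
    ((‖∑ x ∈ I, ee (φ x)‖ ^ (2 * s) : ℝ) : ℂ) =
      ∑ v ∈ (Fintype.piFinset fun _ : Fin s => I) ×ˢ (Fintype.piFinset fun _ : Fin s => I),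
        ee (∑ i, φ (v.1 i) - ∑ i, φ (v.2 i)) := by
  have h1 : ((‖∑ x ∈ I, ee (φ x)‖ ^ (2 * s) : ℝ) : ℂ) =
      (∑ x ∈ I, ee (φ x)) ^ s * (starRingEnd ℂ) ((∑ x ∈ I, ee (φ x)) ^ s) := by
    rw [Complex.mul_conj', norm_pow]
    push_cast
    rw [← pow_mul, mul_comm s 2]
  have h2 : (∑ x ∈ I, ee (φ x)) ^ s =
      ∑ v ∈ Fintype.piFinset fun _ : Fin s => I, ee (∑ i, φ (v i)) := by
    rw [Finset.sum_pow']
    apply Finset.sum_congr rfl
    intro x _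
    rw [← ee_sum]
  rw [h1, h2, map_sum, Finset.sum_mul_sum, Finset.sum_product]
  apply Finset.sum_congr rfl
  intro x _
  apply Finset.sum_congr rfl
  intro y _
  rw [conj_ee, ← ee_add]
  congr 1

theorem grid_phase {k s : ℕ} (M : Fin k → ℕ) (b : Fin k → ℕ)
    (v : (Fin s → ℤ) × (Fin s → ℤ)) :
    (∑ i, ∑ j : Fin k, (b j : ℝ) * ((v.1 i : ℤ) : ℝ) ^ ((j : ℕ) + 1) / (M j : ℝ)) -
      (∑ i, ∑ j : Fin k, (b j : ℝ) * ((v.2 i : ℤ) : ℝ) ^ ((j : ℕ) + 1) / (M j : ℝ)) =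
    ∑ j : Fin k, (b j : ℝ) / (M j : ℝ) * ((dps ((j : ℕ) + 1) v : ℤ) : ℝ) := by
  rw [Finset.sum_comm, Finset.sum_comm (s := Finset.univ (α := Fin s)), ← Finset.sum_sub_distrib]
  apply Finset.sum_congr rfl
  intro j _
  unfold dps
  push_cast
  rw [← Finset.sum_div, ← Finset.sum_div, ← Finset.mul_sum, ← Finset.mul_sum]
  ring

theorem grd : GrdStmt := by
  intro s k N M hM
  set I := Finset.Icc (1 : ℤ) (N : ℤ) with hI
  set V := (Fintype.piFinset fun _ : Fin s => I) ×ˢ (Fintype.piFinset fun _ : Fin s => I) with hV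
  have key : ((∑ b ∈ Fintype.piFinset (fun j => Finset.range (M j)),
      ‖∑ x ∈ I, ee (∑ j : Fin k, (b j : ℝ) * (x : ℝ) ^ ((j : ℕ) + 1) / (M j : ℝ))‖ ^ (2 * s) : ℝ)
      : ℂ) = (((∏ j, (M j : ℝ)) * ((Jmod s k N M).card : ℝ) : ℝ) : ℂ) := by
    rw [Complex.ofReal_sum]
    have h1 : ∀ b ∈ Fintype.piFinset (fun j => Finset.range (M j)),
        ((‖∑ x ∈ I, ee (∑ j : Fin k, (b j : ℝ) * (x : ℝ) ^ ((j : ℕ) + 1) / (M j : ℝ))‖ ^ (2 * s)
          : ℝ) : ℂ) = ∑ v ∈ V, ∏ j : Fin k, ee ((b j : ℝ) / (M j : ℝ) *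
            ((dps ((j : ℕ) + 1) v : ℤ) : ℝ)) := by
      intro b _
      rw [norm_pow_expand]
      apply Finset.sum_congr rfl
      intro v _
      rw [grid_phase, ee_sum]
    rw [Finset.sum_congr rfl h1, Finset.sum_comm]
    have h2 : ∀ v ∈ V, ∑ b ∈ Fintype.piFinset (fun j => Finset.range (M j)),
        ∏ j : Fin k, ee ((b j : ℝ) / (M j : ℝ) * ((dps ((j : ℕ) + 1) v : ℤ) : ℝ)) =
        if (∀ j : Fin k, ((M j : ℕ) : ℤ) ∣ dps ((j : ℕ) + 1) v) then (∏ j, (M j : ℂ)) else 0 := by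
      intro v _
      rw [← Finset.prod_univ_sum (fun j => Finset.range (M j))
        (fun j b => ee ((b : ℝ) / (M j : ℝ) * ((dps ((j : ℕ) + 1) v : ℤ) : ℝ)))]
      rw [Finset.prod_congr rfl (fun j _ => sum_ee_div (M j) (hM j) (dps ((j : ℕ) + 1) v))]
      split_ifs with h
      · apply Finset.prod_congr rfl
        intro j _
        rw [if_pos (h j)]
      · push Not at h
        obtain ⟨j, hj⟩ := h
        apply Finset.prod_eq_zero (Finset.mem_univ j)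
        rw [if_neg hj]
    rw [Finset.sum_congr rfl h2, ← Finset.sum_filter, Finset.sum_const, nsmul_eq_mul]
    have h3 : V.filter (fun v => ∀ j : Fin k, ((M j : ℕ) : ℤ) ∣ dps ((j : ℕ) + 1) v) =
        Jmod s k N M := by
      rfl
    rw [h3]
    push_cast
    ring
  exact_mod_cast key

end Pool.Agent.VM.H61
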