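import Mathlib
import Pool.Agent.VM.Stmts

/-!
# VMV: module GRW (the linear recursion)
-/

set_option autoImplicit false

namespace Pool.Agent.VM.H61

theorem grw : GrwStmt := by
  intro k η Λ A hk hη h0 hz hrec hnn
  by_contra hcon
  push Not at hcon
  have hA0 : ∀ R, A R 0 = η := by
    intro R
    cases R with
    | zero => simpa using h0 0
    | succ R => exact hz R
  -- the values are bounded
  have hb : ∀ j : ℕ, 1 ≤ j → j < k → ∀ R, A R (k - j) ≤ (j : ℝ) * Λ := by
    intro j hj
    induction j, hj using Nat.le_induction with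
    | base =>
      intro h1k R
      have h1 := hrec R 1 le_rfl h1k
      have h2 := hcon (R + 1)
      have hk0 : (0 : ℝ) < k := by exact_mod_cast (by omega : 0 < k)
      have hk1 : (1 : ℝ) < k := by exact_mod_cast (by omega : 1 < k)
      have h3 : 0 ≤ ((k : ℝ) - (1 : ℕ)) / ((k : ℝ) - (1 : ℕ) + 1) * A R (1 - 1) := by
        apply mul_nonneg _ (hnn R _)
        apply div_nonneg
        · push_cast; linarith
        · push_cast; linarith
      have h4 : (1 : ℝ) / ((1 : ℕ) : ℝ) * A R (k - 1) = A R (k - 1) := by simp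
      rw [h4] at h1
      have : A R (k - 1) ≤ Λ := by linarith
      simpa using this
    | succ j hj ih =>
      intro hjk R
      have hjk' : j < k := by omega
      have h1 := hrec R (k - j) (by omega) (by omega)
      have h2 := ih hjk' (R + 1)
      have e1 : ((k - j : ℕ) : ℝ) = (k : ℝ) - j := by
        rw [Nat.cast_sub (by omega)]
      have e2 : k - j - 1 = k - (j + 1) := by omega
      rw [e2, e1] at h1
      have h3 : 0 ≤ 1 / ((k : ℝ) - j) * A R (k - (k - j)) := by
        apply mul_nonneg _ (hnn R _)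
        apply div_nonneg zero_le_one
        have : (j : ℝ) < k := by exact_mod_cast hjk'
        linarith
      have e3 : (k : ℝ) - ((k : ℝ) - j) = j := by ring
      rw [e3] at h1
      have hj0 : (0 : ℝ) < j := by exact_mod_cast hj
      have h4 : (j : ℝ) / (j + 1) * A R (k - (j + 1)) ≤ j * Λ := by linarith
      have h5 : A R (k - (j + 1)) = (j + 1) / j * ((j : ℝ) / (j + 1) * A R (k - (j + 1))) := by
        field_simp
      rw [h5]
      calc (j + 1 : ℝ) / j * ((j : ℝ) / (j + 1) * A R (k - (j + 1)))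
          ≤ (j + 1 : ℝ) / j * (j * Λ) := mul_le_mul_of_nonneg_left h4 (by positivity)
        _ = ((j + 1 : ℕ) : ℝ) * Λ := by push_cast; field_simp
  -- the sum grows linearly
  have hS : ∀ R : ℕ, ∑ j ∈ Finset.Ico 1 k, A (R + 1) j =
      ((k : ℝ) - 1) / k * η + ∑ j ∈ Finset.Ico 1 k, A R j := by
    intro R
    have hk0 : (0 : ℝ) < k := by exact_mod_cast (by omega : 0 < k)
    have h1 : ∑ l ∈ Finset.Ico 1 k, A (R + 1) l = ∑ l ∈ Finset.Ico 1 k,
        (((k : ℝ) - l) / ((k : ℝ) - l + 1) * A R (l - 1)) +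
        ∑ l ∈ Finset.Ico 1 k, 1 / (l : ℝ) * A R (k - l) := by
      rw [← Finset.sum_add_distrib]
      apply Finset.sum_congr rfl
      intro l hl
      rw [Finset.mem_Ico] at hl
      exact hrec R l hl.1 hl.2
    have h2 : ∑ l ∈ Finset.Ico 1 k, 1 / (l : ℝ) * A R (k - l) =
        ∑ j ∈ Finset.Ico 1 k, 1 / ((k : ℝ) - j) * A R j := by
      refine Finset.sum_bij' (fun l _ => k - l) (fun j _ => k - j) ?_ ?_ ?_ ?_ ?_
      · intro l hl
        rw [Finset.mem_Ico] at hl ⊢
        omega
      · intro l hl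
        rw [Finset.mem_Ico] at hl ⊢
        omega
      · intro l hl
        rw [Finset.mem_Ico] at hl
        omega
      · intro l hl
        rw [Finset.mem_Ico] at hl
        omega
      · intro l hl
        rw [Finset.mem_Ico] at hl
        rw [Nat.cast_sub (by omega)]
        congr 2
        ring
    have h3 : ∑ l ∈ Finset.Ico 1 k, (((k : ℝ) - l) / ((k : ℝ) - l + 1) * A R (l - 1)) =
        ∑ j ∈ Finset.Ico 0 (k - 1), (((k : ℝ) - j - 1) / ((k : ℝ) - j) * A R j) := by
      refine Finset.sum_bij' (fun l _ => l - 1) (fun j _ => j + 1) ?_ ?_ ?_ ?_ ?_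
      · intro l hl
        rw [Finset.mem_Ico] at hl ⊢
        omega
      · intro l hl
        rw [Finset.mem_Ico] at hl ⊢
        omega
      · intro l hl
        rw [Finset.mem_Ico] at hl
        omega
      · intro l hl
        rw [Finset.mem_Ico] at hl
        omega
      · intro l hl
        rw [Finset.mem_Ico] at hl
        rw [Nat.cast_sub hl.1]
        congr 2
        · push_cast; ring
        · push_cast; ring
    rw [h1, h2, h3]
    have h4 : ∑ j ∈ Finset.Ico 0 (k - 1), (((k : ℝ) - j - 1) / ((k : ℝ) - j) * A R j) =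
        ((k : ℝ) - 1) / k * η +
          ∑ j ∈ Finset.Ico 1 (k - 1), (((k : ℝ) - j - 1) / ((k : ℝ) - j) * A R j) := by
      rw [Finset.sum_eq_sum_Ico_succ_bot (by omega : 0 < k - 1), hA0]
      simp
    have h5 : ∑ j ∈ Finset.Ico 1 k, (((k : ℝ) - j - 1) / ((k : ℝ) - j) * A R j) =
        ∑ j ∈ Finset.Ico 1 (k - 1), (((k : ℝ) - j - 1) / ((k : ℝ) - j) * A R j) := by
      have : k = (k - 1) + 1 := by omega
      conv_lhs => rw [this]
      rw [Finset.sum_Ico_succ_top (by omega)]
      have e : ((k - 1 + 1 : ℕ) : ℝ) - ((k - 1 : ℕ) : ℝ) - 1 = 0 := by push_cast; ring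
      rw [e]
      simp only [zero_div, zero_mul, add_zero]
      rw [← this]
    rw [h4, ← h5, add_assoc, ← Finset.sum_add_distrib]
    congr 1
    apply Finset.sum_congr rfl
    intro j hj
    rw [Finset.mem_Ico] at hj
    have hjk : (0 : ℝ) < (k : ℝ) - j := by
      have : (j : ℝ) < k := by exact_mod_cast hj.2
      linarith
    field_simp
    ring
  have hlin : ∀ R : ℕ, ∑ j ∈ Finset.Ico 1 k, A R j = (R : ℝ) * (((k : ℝ) - 1) / k * η) := by
    intro R
    induction R with
    | zero =>
      rw [Nat.cast_zero, zero_mul]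
      apply Finset.sum_eq_zero
      intro j hj
      rw [Finset.mem_Ico] at hj
      rw [h0, if_neg (by omega)]
    | succ R ih =>
      rw [hS, ih]
      push_cast
      ring
  have hΛ : 0 ≤ Λ := le_trans (hnn 0 1) (hcon 0).le
  have hup : ∀ R : ℕ, ∑ j ∈ Finset.Ico 1 k, A R j ≤ (k : ℝ) * (k * Λ) := by
    intro R
    calc ∑ j ∈ Finset.Ico 1 k, A R j ≤ ∑ _j ∈ Finset.Ico 1 k, (k : ℝ) * Λ := by
          apply Finset.sum_le_sum
          intro j hj
          rw [Finset.mem_Ico] at hj
          have h1 := hb (k - j) (by omega) (by omega) R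
          have e : k - (k - j) = j := by omega
          rw [e] at h1
          refine h1.trans (mul_le_mul_of_nonneg_right ?_ hΛ)
          exact_mod_cast Nat.sub_le k j
      _ = ((k - 1 : ℕ) : ℝ) * ((k : ℝ) * Λ) := by
          rw [Finset.sum_const, Nat.card_Ico, nsmul_eq_mul]
      _ ≤ (k : ℝ) * (k * Λ) := by
          apply mul_le_mul_of_nonneg_right
          · exact_mod_cast Nat.sub_le k 1
          · positivity
  have hc : 0 < ((k : ℝ) - 1) / k * η := by
    have hk1 : (1 : ℝ) < k := by exact_mod_cast (by omega : 1 < k)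
    have : 0 < ((k : ℝ) - 1) / k := div_pos (by linarith) (by linarith)
    positivity
  obtain ⟨R, hR⟩ := exists_nat_gt ((k : ℝ) * (k * Λ) / (((k : ℝ) - 1) / k * η))
  rw [div_lt_iff₀ hc] at hR
  have h1 := hup R
  rw [hlin R] at h1
  linarith

end Pool.Agent.VM.H61
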