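import Mathlib
import Pool.Agent.VM.Stmts

/-!
# VMV: module VMV (the mean value theorem from decoupling)
-/

set_option autoImplicit false

namespace Pool.Agent.VM.H61

open Pool.Agent.Helper69_Weyl

/-- the box as a product of ranges -/
theorem sum_box (q l : ℕ) (F : (Fin l → ℤ) → ℝ) :
    ∑ ζ : Fin l → Fin q, F (fun j => (((ζ j : ℕ) : ℤ))) =
      ∑ b ∈ Fintype.piFinset (fun _ : Fin l => Finset.range q), F (fun j => ((b j : ℕ) : ℤ)) := by
  refine Finset.sum_bij (fun ζ _ => fun j => (ζ j : ℕ)) ?_ ?_ ?_ ?_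
  · intro ζ _
    rw [Fintype.mem_piFinset]
    intro j
    rw [Finset.mem_range]
    exact (ζ j).2
  · intro ζ _ ζ' _ h
    funext j
    apply Fin.ext
    exact congrFun h j
  · intro b hb
    rw [Fintype.mem_piFinset] at hb
    exact ⟨fun j => ⟨b j, Finset.mem_range.1 (hb j)⟩, Finset.mem_univ _, rfl⟩
  · intro ζ _
    rfl

theorem card_box (q l : ℕ) : ∑ _ζ : Fin l → Fin q, (1 : ℝ) = (q : ℝ) ^ l := by
  simp

/-- upper bound for averages -/
theorem av_le (q l : ℕ) (hq : 0 < q) (Φ : (Fin l → ℤ) → ℝ) (B : ℝ) (h : ∀ ζ, Φ ζ ≤ B) :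
    Av q l Φ ≤ B := by
  unfold Av
  have hq' : (0 : ℝ) < (q : ℝ) ^ l := by positivity
  rw [div_le_iff₀ hq']
  calc ∑ ζ : Fin l → Fin q, Φ (fun j => (((ζ j : ℕ) : ℤ))) ≤ ∑ _ζ : Fin l → Fin q, B :=
        Finset.sum_le_sum (fun ζ _ => h _)
    _ = B * (q : ℝ) ^ l := by
        rw [← card_box q l, Finset.mul_sum]
        simp

theorem norm_G_le (q : ℕ) {l : ℕ} (E : Fin l → ℤ → ℤ) (s : Finset ℤ) (ζ : Fin l → ℤ) :
    ‖G q E s (fun _ => 1) ζ‖ ≤ (s.card : ℝ) := by
  unfold G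
  refine (norm_sum_le _ _).trans ?_
  calc ∑ x ∈ s, ‖(1 : ℂ) * ee (((∑ j, ζ j * E j x : ℤ) : ℝ) / (q : ℝ))‖ = ∑ _x ∈ s, (1 : ℝ) := by
        apply Finset.sum_congr rfl
        intro x _
        rw [one_mul, norm_ee]
    _ = (s.card : ℝ) := by simp
    _ ≤ (s.card : ℝ) := le_rfl

theorem mom_nonneg (q : ℕ) {l : ℕ} (E : Fin l → ℤ → ℤ) (r : ℕ) (s : Finset ℤ) (w : ℤ → ℂ) :
    0 ≤ mom q E r s w := by
  unfold mom Av
  apply div_nonneg
  · apply Finset.sum_nonneg
    intro ζ _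
    positivity
  · positivity

/-- the square function of the constant weight for an interval -/
theorem sq_le {k : ℕ} (q : ℕ) (hq : 0 < q) (r m : ℕ) (hr : 1 ≤ r) (hm : 0 < m) (s : Finset ℤ)
    (h1 : ∀ c : ℤ, (cl m c s).card ≤ 1) :
    Sq q (mc 0 k) r m s (fun _ => 1) ≤ (s.card : ℝ) := by
  have hterm : ∀ c ∈ Finset.range m,
      (mom q (mc 0 k) r (cl m (c : ℤ) s) (fun _ => 1)) ^ (1 / (r : ℝ)) ≤
        ((cl m (c : ℤ) s).card : ℝ) := by
    intro c _
    have h2 : mom q (mc 0 k) r (cl m (c : ℤ) s) (fun _ => 1) ≤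
        ((cl m (c : ℤ) s).card : ℝ) ^ (2 * r) := by
      apply av_le q k hq
      intro ζ
      exact pow_le_pow_left₀ (norm_nonneg _) (norm_G_le q (mc 0 k) _ ζ) _
    have h3 := h1 (c : ℤ)
    have h0 : ((cl m (c : ℤ) s).card : ℝ) = 0 ∨ ((cl m (c : ℤ) s).card : ℝ) = 1 := by
      rcases Nat.le_one_iff_eq_zero_or_eq_one.1 h3 with h | h
      · left; rw [h]; simp
      · right; rw [h]; simp
    have hr' : (0 : ℝ) < 1 / (r : ℝ) := by
      have : (0 : ℝ) < r := by exact_mod_cast hr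
      positivity
    rcases h0 with h | h
    · rw [h] at h2 ⊢
      rw [zero_pow (by omega)] at h2
      have h4 : mom q (mc 0 k) r (cl m (c : ℤ) s) (fun _ => 1) = 0 :=
        le_antisymm h2 (mom_nonneg _ _ _ _ _)
      rw [h4, Real.zero_rpow hr'.ne']
    · rw [h] at h2 ⊢
      rw [one_pow] at h2
      exact Real.rpow_le_one (mom_nonneg _ _ _ _ _) h2 hr'.le
  unfold Sq
  refine (Finset.sum_le_sum hterm).trans (le_of_eq ?_)
  have h5 : s.card = ∑ c ∈ Finset.range m, (cl m (c : ℤ) s).card := by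
    have hmap : ∀ x ∈ s, (x % (m : ℤ)).toNat ∈ Finset.range m := by
      intro x _
      rw [Finset.mem_range]
      have h1 := Int.emod_nonneg x (by exact_mod_cast hm.ne' : (m : ℤ) ≠ 0)
      have h2 := Int.emod_lt_of_pos x (by exact_mod_cast hm : (0 : ℤ) < m)
      omega
    rw [Finset.card_eq_sum_card_fiberwise hmap]
    apply Finset.sum_congr rfl
    intro c hc
    rw [Finset.mem_range] at hc
    congr 1
    unfold cl
    apply Finset.filter_congr
    intro x _
    have h1 := Int.emod_nonneg x (by exact_mod_cast hm.ne' : (m : ℤ) ≠ 0)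
    have h3 : (c : ℤ) % (m : ℤ) = c := Int.emod_eq_of_lt (by positivity) (by exact_mod_cast hc)
    unfold Int.ModEq
    rw [h3]
    omega
  rw [h5]
  push_cast
  rfl

theorem mom_eq (grd : GrdStmt) (k r N q : ℕ) (hq : 0 < q) :
    mom q (mc 0 k) r (Finset.Icc (1 : ℤ) (N : ℤ)) (fun _ => 1) =
      ((Jmod r k N (fun _ => q)).card : ℝ) := by
  have h := grd r k N (fun _ => q) (fun _ => hq)
  unfold mom Av
  rw [sum_box q k (fun ζ => ‖G q (mc 0 k) (Finset.Icc (1 : ℤ) (N : ℤ)) (fun _ => 1) ζ‖ ^ (2 * r))]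
  have hq' : (0 : ℝ) < (q : ℝ) ^ k := by positivity
  rw [div_eq_iff hq'.ne']
  rw [Finset.prod_const, Finset.card_univ, Fintype.card_fin] at h
  rw [mul_comm ((Jmod r k N fun _ => q).card : ℝ), ← h]
  apply Finset.sum_congr rfl
  intro b _
  congr 2
  unfold G
  apply Finset.sum_congr rfl
  intro x _
  rw [one_mul]
  congr 1
  unfold mc
  push_cast
  rw [Finset.sum_div]
  apply Finset.sum_congr rfl
  intro j _
  rw [zero_add]

theorem jset_le (k s N : ℕ) (M : Fin k → ℕ) : (Jset s k N).card ≤ (Jmod s k N M).card := by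
  apply Finset.card_le_card
  unfold Jset Jmod
  intro v hv
  rw [Finset.mem_filter] at hv ⊢
  refine ⟨hv.1, fun j => ?_⟩
  rw [hv.2 j, sub_self]
  exact dvd_zero _

theorem tri_pos {k : ℕ} (hk : 1 ≤ k) : 1 ≤ tri k := by
  unfold tri
  have h : 1 * 2 ≤ k * (k + 1) := Nat.mul_le_mul hk (by omega)
  omega

theorem vmv (grd : GrdStmt) : VmvStmt := by
  intro p k hp hk hD ε hε
  obtain ⟨C, hC, hDec⟩ := hD ε hε
  have hp1 : 1 < p := hp.one_lt
  have hp0 : (0 : ℝ) < p := by exact_mod_cast hp.pos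
  refine ⟨C * (p : ℝ) ^ ε, by positivity, ?_⟩
  intro N
  have hr := tri_pos hk
  have hr' : (0 : ℝ) < tri k := by exact_mod_cast hr
  rcases Nat.eq_zero_or_pos N with rfl | hN
  · have h0 : Jset (tri k) k 0 = ∅ := by
      unfold Jset
      rw [Finset.filter_eq_empty_iff]
      intro v hv
      rw [Finset.mem_product, Fintype.mem_piFinset] at hv
      have := hv.1 ⟨0, hr⟩
      rw [Finset.mem_Icc] at this
      exfalso
      simp only [Nat.cast_zero] at this
      omega
    rw [h0]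
    simp only [Finset.card_empty, Nat.cast_zero]
    rw [Real.zero_rpow (by positivity)]
    simp
  · set n := Nat.clog p N with hn
    have hN1 : N ≤ p ^ n := Nat.le_pow_clog hp1 N
    have hN2 : p ^ n ≤ p * N := by
      rcases Nat.eq_or_lt_of_le hN with h | h
      · rw [hn, ← h]
        simp
        omega
      · have h1 := Nat.pow_pred_clog_lt_self hp1 h
        have h2 : 0 < n := Nat.clog_pos hp1 (by omega)
        have h3 : p ^ n = p * p ^ (n - 1) := by
          rw [← pow_succ', Nat.sub_add_cancel h2]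
        rw [h3]
        exact Nat.mul_le_mul_left p h1.le
    set s := Finset.Icc (1 : ℤ) (N : ℤ) with hs
    have hq : 0 < p ^ (k * n) := pow_pos hp.pos _
    have hm : 0 < p ^ n := pow_pos hp.pos _
    have hcard : s.card = N := by
      rw [hs, Int.card_Icc]
      omega
    have h1 := hDec n s (fun _ => 1)
    have h2 : Sq (p ^ (k * n)) (mc 0 k) (tri k) (p ^ n) s (fun _ => 1) ≤ (N : ℝ) := by
      have h3 := sq_le (k := k) (p ^ (k * n)) hq (tri k) (p ^ n) hr hm s ?_
      · rw [hcard] at h3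
        exact h3
      · intro c
        rw [Finset.card_le_one]
        intro x hx y hy
        unfold cl at hx hy
        rw [Finset.mem_filter] at hx hy
        have h4 : x ≡ y [ZMOD ((p ^ n : ℕ) : ℤ)] := hx.2.trans hy.2.symm
        have h5 := h4.symm.dvd
        rw [hs, Finset.mem_Icc] at hx hy
        by_contra hne
        have h6 : x - y ≠ 0 := sub_ne_zero.2 hne
        have h7 := Int.le_of_dvd (abs_pos.2 h6) ((dvd_abs _ _).2 h5)
        have h8 : (N : ℤ) ≤ ((p ^ n : ℕ) : ℤ) := by exact_mod_cast hN1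
        rcases abs_cases (x - y) with ⟨h9, _⟩ | ⟨h9, _⟩ <;> omega
    have hSq0 : 0 ≤ Sq (p ^ (k * n)) (mc 0 k) (tri k) (p ^ n) s (fun _ => 1) := by
      unfold Sq
      apply Finset.sum_nonneg
      intro c _
      exact Real.rpow_nonneg (mom_nonneg _ _ _ _ _) _
    have h3 : ((Jset (tri k) k N).card : ℝ) ≤ C * (p : ℝ) ^ (ε * (n : ℝ)) * (N : ℝ) ^ tri k := by
      calc ((Jset (tri k) k N).card : ℝ) ≤ ((Jmod (tri k) k N (fun _ => p ^ (k * n))).card : ℝ) := by
            exact_mod_cast jset_le k (tri k) N _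
        _ = mom (p ^ (k * n)) (mc 0 k) (tri k) s (fun _ => 1) := (mom_eq grd k (tri k) N _ hq).symm
        _ ≤ _ := h1
        _ ≤ _ := by
            apply mul_le_mul_of_nonneg_left _ (by positivity)
            exact pow_le_pow_left₀ hSq0 h2 _
    refine h3.trans ?_
    have hN0 : (0 : ℝ) < N := by exact_mod_cast hN
    have h4 : (p : ℝ) ^ (ε * (n : ℝ)) ≤ (p : ℝ) ^ ε * (N : ℝ) ^ ε := by
      rw [mul_comm ε, Real.rpow_mul hp0.le, Real.rpow_natCast, ← Real.mul_rpow hp0.le hN0.le]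
      apply Real.rpow_le_rpow (by positivity) _ hε.le
      exact_mod_cast hN2
    rw [Real.rpow_add hN0, Real.rpow_natCast]
    calc C * (p : ℝ) ^ (ε * (n : ℝ)) * (N : ℝ) ^ tri k
        ≤ C * ((p : ℝ) ^ ε * (N : ℝ) ^ ε) * (N : ℝ) ^ tri k := by
          apply mul_le_mul_of_nonneg_right _ (by positivity)
          exact mul_le_mul_of_nonneg_left h4 hC.le
      _ = C * (p : ℝ) ^ ε * ((N : ℝ) ^ tri k * (N : ℝ) ^ ε) := by ring

end Pool.Agent.VM.H61
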